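import Pool.Agent.H12.RC

/-!
# Logarithms of algebraic numbers: the minors of their matrices at every scale

The case `n = 0` of the problem: `ℚ`-linearly independent numbers `t` with algebraic `exp t` should be algebraically
independent. Let `r (b + l) < b l`. The common zeros of the `(r + 1) × (r + 1)` minors are the `b × l` matrices of rank
at most `r`. By Waldschmidt's theorem a matrix `t` of linearly independent logarithms of algebraic numbers is not one
of them. Here this is proved at every scale, uniformly in the logarithms: for all `D` and `B` there is a `C` such that,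
for every `H`, if the numbers `exp (t j p)` are algebraic of degree at most `D` and height at most `H` and
`|t j p| ≤ B`, some `(r + 1) × (r + 1)` minor of `t` is larger than `exp (-C (log H) ^ ((b + l) (r + 1) + 1))`. For six
real logarithms (`b = 2`, `l = 3`, `r = 1`): the polynomial
`(x₁ y₂ - x₂ y₁)² + (x₁ y₃ - x₃ y₁)² + (x₂ y₃ - x₃ y₂)²` takes a value larger than `exp (-C (log H) ^ 11)`.
-/

set_option autoImplicit false

namespace Pool.Agent.Results.MP_c9768e_nt.MinorsAtEveryScale

open Polynomial

/-- `α` is an algebraic number of degree at most `D` and height at most `H`: a root of a nonzero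
integer polynomial of degree at most `D` with coefficients of absolute value at most `H`. -/
def IsAlg (D H : ℕ) (α : ℂ) : Prop :=
  ∃ P : ℤ[X], P ≠ 0 ∧ P.natDegree ≤ D ∧ (∀ i, |P.coeff i| ≤ (H : ℤ)) ∧ aeval α P = 0

open Pool.Agent.H12 in
/-- **Minors at every scale.** -/
theorem result (b l r D : ℕ) (B : ℝ) (hr : 1 ≤ r) (hrbl : r * (b + l) < b * l) :
    ∃ C : ℝ, 0 < C ∧ ∀ H : ℕ, 3 ≤ H → ∀ t : Matrix (Fin b) (Fin l) ℂ,
      LinearIndependent ℚ (fun jp : Fin b × Fin l => t jp.1 jp.2) →
      (∀ j p, IsAlg D H (Complex.exp (t j p))) → (∀ j p, ‖t j p‖ ≤ B) →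
      ∃ (f : Fin (r + 1) → Fin b) (g : Fin (r + 1) → Fin l),
        Real.exp (-(C * Real.log H ^ ((b + l) * (r + 1) + 1))) < ‖(t.submatrix f g).det‖ := by
  obtain ⟨C, hC, hmain⟩ := rank_core b l r D (max 1 B) (le_max_left _ _) hr hrbl
  refine ⟨(r + 1) * C, by positivity, fun H hH t hind halg hB => ?_⟩
  by_contra hcon
  push Not at hcon
  set L := Real.log H ^ ((b + l) * (r + 1) + 1) with hL
  have h1 : Real.exp (-(C * L)) ^ (r + 1) = Real.exp (-((r + 1) * C * L)) := by
    rw [← Real.exp_nat_mul]
    congr 1
    push_cast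
    ring
  obtain ⟨A, hA, hclose⟩ := near_rank t (Real.exp (-(C * L))) (Real.exp_pos _) (r := r)
    (fun f g => by rw [h1]; exact hcon f g)
  obtain ⟨j, p, hjp⟩ := hmain H hH t halg (fun j p => (hB j p).trans (le_max_right _ _)) (by
    intro n hn
    have h2 := Fintype.linearIndependent_iff.mp hind (fun jp => (n jp.1 jp.2 : ℚ)) (by
      rw [Fintype.sum_prod_type, ← hn]
      apply Finset.sum_congr rfl
      intro j _
      apply Finset.sum_congr rfl
      intro p _
      rw [Rat.smul_def]
      push_cast
      rfl)
    funext j p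
    exact_mod_cast h2 (j, p)) A hA
  exact absurd (hclose j p) (not_le.mpr hjp)

end Pool.Agent.Results.MP_c9768e_nt.MinorsAtEveryScale
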